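import Pool.Agent.Helper1_RL.Stmts
import Pool.Agent.Helper36_RF.Chr

/-!
# GMR: the metrics `g j` are smooth metrics with `Ric ≥ -1` (MP_62da59_gt)
-/

noncomputable section

open scoped ContDiff Topology ENNReal RealInnerProductSpace
set_option maxSynthPendingDepth 3
open Set Metric Filter

namespace Pool.Agent.RLim.H4

open Pool.Agent.RF Pool.Agent.RLim

/-- being a smooth metric is a local property -/
theorem metric_local {G : E4 → Bil E4} {U : Set E4} (hU : IsOpen U)
    (h : ∀ x ∈ U, ∃ (H : E4 → Bil E4) (V : Set E4), IsMetricOn H V ∧ x ∈ V ∧ G =ᶠ[𝓝 x] H) :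
    IsMetricOn G U where
  isOpen := hU
  smooth := by
    intro x hx
    obtain ⟨H, V, hH, hxV, he⟩ := h x hx
    exact ((hH.contDiffAt hxV).congr_of_eventuallyEq he).contDiffWithinAt
  symm := by
    intro x hx v w
    obtain ⟨H, V, hH, hxV, he⟩ := h x hx
    rw [he.eq_of_nhds]
    exact hH.symm x hxV v w
  pos := by
    intro x hx v hv
    obtain ⟨H, V, hH, hxV, he⟩ := h x hx
    rw [he.eq_of_nhds]
    exact hH.pos x hxV v hv

theorem gmr (GLO : GloStmt) (SCL : SclStmt) (BGR : BgRicStmt) : GmrStmt := by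
  intro D j
  obtain ⟨glo1, glo2⟩ := GLO D j
  obtain ⟨bm, br, -⟩ := BGR D.r (D.dlt j) D.r_pos D.r_lt (D.dlt_pos j)
  have hopen : IsOpen (D.Dom j) := by
    have : D.Dom j = ⋂ k ∈ Finset.range j, {X : E4 | X ≠ D.P k} := by
      ext X
      simp [GData.Dom]
    rw [this]
    exact isOpen_biInter_finset fun k _ => isOpen_ne
  have hw : ∀ k, 0 < D.w k := fun k =>
    div_pos (D.s_pos k) (lt_of_lt_of_le (by norm_num) (D.L_ge k))
  have key : ∀ X ∈ D.Dom j, ∃ (H : E4 → Bil E4) (V : Set E4), IsMetricOn H V ∧ X ∈ V ∧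
      D.g j =ᶠ[𝓝 X] H ∧ ∀ V, -(H X V V) ≤ ric H X V V := by
    intro X hX
    by_cases hc : ∃ k < j, ‖X - D.P k‖ < D.s k
    · obtain ⟨k, hk, hlt⟩ := hc
      have hne : (D.w k)⁻¹ • (X - D.P k) ∈ Om (Fin 4) := by
        change (D.w k)⁻¹ • (X - D.P k) ≠ 0
        exact smul_ne_zero (inv_ne_zero (hw k).ne') (sub_ne_zero.2 (hX k hk))
      obtain ⟨s1, s2⟩ := SCL (D.G j k) (Om (Fin 4)) (D.w k) (D.P k) (hw k) (D.metric j k hk)
      refine ⟨fun X => D.G j k ((D.w k)⁻¹ • (X - D.P k)),
        {X | (D.w k)⁻¹ • (X - D.P k) ∈ Om (Fin 4)}, s1, hne, ?_, ?_⟩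
      · have ho : {Y : E4 | ‖Y - D.P k‖ < D.s k} ∈ 𝓝 X :=
          (isOpen_lt (by fun_prop) continuous_const).mem_nhds hlt
        filter_upwards [ho] with Y hY
        exact glo1 k hk Y hY
      · intro V
        rw [s2 X hne V]
        have hL : (0 : ℝ) < D.L k := lt_of_lt_of_le (by norm_num) (D.L_ge k)
        have hs := D.s_pos k
        have hn : ‖(D.w k)⁻¹ • (X - D.P k)‖ ≤ D.L k := by
          rw [norm_smul, norm_inv, Real.norm_of_nonneg (hw k).le]
          rw [inv_mul_le_iff₀ (hw k)]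
          have : D.w k * D.L k = D.s k := by
            unfold GData.w
            field_simp
          rw [this]
          exact hlt.le
        have h1 := D.ric_ge j k hk _ hne hn V
        have h2 := mul_le_mul_of_nonneg_left h1 (by positivity : 0 ≤ ((D.w k) ^ 2)⁻¹)
        refine le_trans (le_of_eq ?_) h2
        unfold GData.w
        field_simp
    · push Not at hc
      refine ⟨bg D.r (D.dlt j), univ, bm, mem_univ _, ?_, ?_⟩
      · have ho : {Y : E4 | ∀ k < j, D.s k / 4 < ‖Y - D.P k‖} ∈ 𝓝 X := by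
          have : {Y : E4 | ∀ k < j, D.s k / 4 < ‖Y - D.P k‖} =
              ⋂ k ∈ Finset.range j, {Y : E4 | D.s k / 4 < ‖Y - D.P k‖} := by
            ext Y
            simp
          rw [this]
          refine (isOpen_biInter_finset fun k _ =>
            isOpen_lt continuous_const (by fun_prop)).mem_nhds ?_
          simp only [Finset.mem_range, mem_iInter, mem_ofPred_eq]
          intro k hk
          have h1 := hc k hk
          have h2 := D.s_pos k
          linarith
        filter_upwards [ho] with Y hY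
        exact glo2 Y fun k hk => (hY k hk).le
      · intro V
        have h1 := br X V
        have h2 : 0 ≤ bg D.r (D.dlt j) X V V := by
          by_cases hV : V = 0
          · simp [hV]
          · exact (bm.pos X (mem_univ _) V hV).le
        linarith
  refine ⟨metric_local hopen fun X hX => ?_, fun X hX V => ?_⟩
  · obtain ⟨H, V, h1, h2, h3, -⟩ := key X hX
    exact ⟨H, V, h1, h2, h3⟩
  · obtain ⟨H, U, h1, h2, h3, h4⟩ := key X hX
    rw [ric_congr h3, h3.eq_of_nhds]
    exact h4 V

end Pool.Agent.RLim.H4
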