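import Pool.Agent.Helper4_RLA.Gmr

/-!
# MT: the model metric at scale `1` (MP_62da59_gt)
-/

noncomputable section

open scoped ContDiff Topology ENNReal RealInnerProductSpace
set_option maxSynthPendingDepth 3
open Set Metric Filter

namespace Pool.Agent.RLim.H4

open Pool.Agent.RF Pool.Agent.RLim

/-- the value of `u2` in terms of the orthonormal components -/
theorem u2_val (hHF : HopfStmt) (F B : ℝ → ℝ) (X : E4) (hX : X ≠ 0) (V : E4) :
    ∃ t x y : ℝ, 0 ≤ t ∧ 0 ≤ x ∧ 0 ≤ y ∧ ‖V‖ ^ 2 = t + x + y ∧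
      t = ‖X‖ ^ 2 / 4 * ‖fderiv ℝ hopf X V‖ ^ 2 ∧
      u2 F B X V V = B ‖X‖ ^ 2 / ‖X‖ ^ 2 * t + x / F ‖X‖ + y := by
  have hR : 0 < ‖X‖ := norm_pos_iff.2 hX
  have h := hHF.2 X hX V
  refine ⟨‖X‖ ^ 2 / 4 * ‖fderiv ℝ hopf X V‖ ^ 2, ⟪X, V⟫ ^ 2 / ‖X‖ ^ 2, ⟪JJ X, V⟫ ^ 2 / ‖X‖ ^ 2,
    by positivity, by positivity, by positivity, ?_, rfl, ?_⟩
  · field_simp
    nlinarith [h]
  · rw [u2, gen_apply, real_inner_self_eq_norm_sq]
    have h2 : ‖V‖ ^ 2 = ‖X‖ ^ 2 / 4 * ‖fderiv ℝ hopf X V‖ ^ 2 + ⟪X, V⟫ ^ 2 / ‖X‖ ^ 2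
        + ⟪JJ X, V⟫ ^ 2 / ‖X‖ ^ 2 := by
      field_simp
      nlinarith [h]
    rw [h2]
    ring

theorem mt (NECK : NeckStmt) (U2M : U2MetricStmt) (U2R : U2RicStmt) (CORE : CoreStmt)
    (HOPF : HopfStmt) : ModelStmt := by
  obtain ⟨κ, b, F, B, hκ0, hκ1, hb0, hb2, hok, hF, hB1, hB2, hB3, hB4, huc⟩ := CORE
  obtain ⟨r, c0, hr0, hr1, hc0, hneck⟩ := NECK κ hκ0 hκ1
  refine ⟨r, b, min c0 1, min c0 (b ^ 2 / 4), 4 + 1 / κ, hr0, hr1, hb0, lt_min hc0 one_pos,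
    lt_min hc0 (by positivity), by positivity, fun η hη0 hη1 => ?_⟩
  obtain ⟨L, hL, δ0, hδ0, hδ⟩ := hneck η hη0 hη1
  refine ⟨L, hL, δ0, hδ0, fun δ hδ1 hδ2 => ?_⟩
  obtain ⟨N, hN, hN1, hN2, hN3, hN4⟩ := hδ δ hδ1 hδ2
  have hu := U2M F B hok
  -- the two metrics agree for `2 ≤ |X| ≤ 3`
  have hag : ∀ X : E4, 2 ≤ ‖X‖ → ‖X‖ ≤ 3 → u2 F B X = N X := by
    intro X h2 h3
    have hX : X ≠ 0 := by
      intro h
      rw [h, norm_zero] at h2
      linarith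
    have hR : 0 < ‖X‖ := norm_pos_iff.2 hX
    rw [hN1 X hX h3, u2, (hB4 _ h2).1, (hB4 _ h2).2, div_self (by positivity)]
    simp
  have hG1 : ∀ X : E4, ‖X‖ < 5 / 2 → (if ‖X‖ < 5 / 2 then u2 F B X else N X) = u2 F B X :=
    fun X h => if_pos h
  have hG2 : ∀ X : E4, 2 ≤ ‖X‖ → (if ‖X‖ < 5 / 2 then u2 F B X else N X) = N X := by
    intro X h
    split_ifs with h5
    · exact hag X h (by linarith)
    · rfl
  have hn1 : ∀ X : E4, ‖X‖ < 5 / 2 →
      (fun X => if ‖X‖ < 5 / 2 then u2 F B X else N X) =ᶠ[𝓝 X] u2 F B := by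
    intro X h
    filter_upwards [(isOpen_lt continuous_norm continuous_const).mem_nhds h] with Y hY
    exact hG1 Y hY
  have hn2 : ∀ X : E4, 2 < ‖X‖ →
      (fun X => if ‖X‖ < 5 / 2 then u2 F B X else N X) =ᶠ[𝓝 X] N := by
    intro X h
    filter_upwards [(isOpen_lt continuous_const continuous_norm).mem_nhds h] with Y hY
    exact hG2 Y (le_of_lt hY)
  have hmet : IsMetricOn (fun X => if ‖X‖ < 5 / 2 then u2 F B X else N X) (Om (Fin 4)) := by
    refine metric_local hu.isOpen fun X hX => ?_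
    rcases lt_or_ge ‖X‖ (5 / 2) with h | h
    · exact ⟨_, _, hu, hX, hn1 X h⟩
    · exact ⟨_, _, hN, hX, hn2 X (by linarith)⟩
  refine ⟨fun X => if ‖X‖ < 5 / 2 then u2 F B X else N X, hmet, ?_, ?_, ?_, ?_, ?_, ?_, ?_⟩
  · -- near the exceptional sphere
    intro X hX h
    have hR : 0 < ‖X‖ := norm_pos_iff.2 hX
    change (if ‖X‖ < 5 / 2 then u2 F B X else N X) = _
    rw [hG1 X (by linarith), u2, coreM, (hB3 _ hR h.le).1, (hB3 _ hR h.le).2]
    simp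
  · intro X h
    change (if ‖X‖ < 5 / 2 then u2 F B X else N X) = _
    rw [hG2 X (by linarith)]
    exact hN2 X h
  · -- Ricci
    intro X hX hXL V
    have hR : 0 < ‖X‖ := norm_pos_iff.2 hX
    rcases lt_or_ge ‖X‖ (5 / 2) with h | h
    · rw [ric_congr (hn1 X h)]
      have h1 := U2R F B hok ‖X‖ hR (huc _ hR).1 (huc _ hR).2.1 (huc _ hR).2.2 X rfl V
      have h2 : 0 ≤ (fun X => if ‖X‖ < 5 / 2 then u2 F B X else N X) X V V := by
        by_cases hV : V = 0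
        · simp [hV]
        · exact (hmet.pos X hX V hV).le
      have h3 : 0 ≤ η / L ^ 2 := by positivity
      nlinarith [mul_nonneg h3 h2]
    · rw [ric_congr (hn2 X (by linarith))]
      have h2 : (fun X => if ‖X‖ < 5 / 2 then u2 F B X else N X) X = N X :=
        hG2 X (by linarith)
      rw [h2]
      exact hN3 X (by linarith) hXL V
  · -- lower bound
    intro X hX V
    have hR : 0 < ‖X‖ := norm_pos_iff.2 hX
    change _ ≤ (if ‖X‖ < 5 / 2 then u2 F B X else N X) V V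
    rcases lt_or_ge ‖X‖ (5 / 2) with h | h
    · rw [hG1 X h]
      obtain ⟨t, x, y, ht, hx, hy, h1, h2, h3⟩ := u2_val HOPF F B X hX V
      rw [h3]
      have hm : min c0 1 ≤ 1 := min_le_right _ _
      have e1 : 1 ≤ B ‖X‖ ^ 2 / ‖X‖ ^ 2 := by
        rw [one_le_div (by positivity)]
        have := (hB1 _ hR).2
        gcongr
      have e2 : x ≤ x / F ‖X‖ := by
        rw [le_div_iff₀ (hok.F_pos _ hR)]
        nlinarith [(hF _ hR).2]
      nlinarith [mul_le_mul_of_nonneg_right e1 ht, sq_nonneg ‖V‖,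
        mul_le_mul_of_nonneg_right hm (sq_nonneg ‖V‖)]
    · rw [hG2 X (by linarith)]
      refine le_trans ?_ (hN4 X hX V).1
      gcongr
      exact min_le_left _ _
  · -- lower bound for the differential of the Hopf map
    intro X hX V
    have hR : 0 < ‖X‖ := norm_pos_iff.2 hX
    change _ ≤ (if ‖X‖ < 5 / 2 then u2 F B X else N X) V V
    obtain ⟨t, x, y, ht, hx, hy, h1, h2, h3⟩ := u2_val HOPF F B X hX V
    rcases lt_or_ge ‖X‖ (5 / 2) with h | h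
    · rw [hG1 X h, h3]
      have e1 : b ^ 2 ≤ B ‖X‖ ^ 2 := by
        have := (hB1 _ hR).1
        gcongr
      have e2 : 0 ≤ x / F ‖X‖ := div_nonneg hx (hok.F_pos _ hR).le
      have e3 : B ‖X‖ ^ 2 / ‖X‖ ^ 2 * t = B ‖X‖ ^ 2 / 4 * ‖fderiv ℝ hopf X V‖ ^ 2 := by
        rw [h2]
        field_simp
      rw [e3]
      have e4 : min c0 (b ^ 2 / 4) * ‖fderiv ℝ hopf X V‖ ^ 2 ≤
          B ‖X‖ ^ 2 / 4 * ‖fderiv ℝ hopf X V‖ ^ 2 := by
        gcongr
        exact (min_le_right _ _).trans (by linarith)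
      linarith
    · rw [hG2 X (by linarith)]
      refine le_trans ?_ (hN4 X hX V).1
      have e1 : ‖fderiv ℝ hopf X V‖ ^ 2 ≤ ‖V‖ ^ 2 := by
        rw [h1]
        have : (1 : ℝ) ≤ ‖X‖ ^ 2 / 4 := by nlinarith
        nlinarith [mul_le_mul_of_nonneg_right this (sq_nonneg ‖fderiv ℝ hopf X V‖)]
      calc min c0 (b ^ 2 / 4) * ‖fderiv ℝ hopf X V‖ ^ 2 ≤ c0 * ‖fderiv ℝ hopf X V‖ ^ 2 := by
            gcongr
            exact min_le_left _ _
        _ ≤ c0 * ‖V‖ ^ 2 := by gcongr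
  · -- upper bound away from the core
    intro X h1 V
    have hR : 0 < ‖X‖ := by linarith
    have hX : X ≠ 0 := norm_pos_iff.1 hR
    change (if ‖X‖ < 5 / 2 then u2 F B X else N X) V V ≤ _
    rcases lt_or_ge ‖X‖ (5 / 2) with h | h
    · rw [hG1 X h]
      obtain ⟨t, x, y, ht, hx, hy, h2, h3, h4⟩ := u2_val HOPF F B X hX V
      rw [h4, h2]
      have e1 : B ‖X‖ ^ 2 / ‖X‖ ^ 2 ≤ 4 := by
        rw [div_le_iff₀ (by positivity)]
        have hBp := hok.B_pos _ hR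
        rcases le_or_gt ‖X‖ 2 with h5 | h5
        · have := hB2 _ hR h5
          nlinarith
        · rw [(hB4 _ h5.le).2]
          nlinarith
      have e2 : x / F ‖X‖ ≤ x * (1 / κ) := by
        rw [div_eq_mul_one_div]
        have := (hF _ hR).1
        gcongr
      have e3 : 0 < 1 / κ := by positivity
      nlinarith [mul_le_mul_of_nonneg_right e1 ht, mul_nonneg e3.le ht, mul_nonneg e3.le hy]
    · rw [hG2 X (by linarith)]
      refine (hN4 X hX V).2.trans ?_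
      rw [div_eq_inv_mul, ← one_div]
      gcongr
      linarith
  · -- upper bound in the core
    intro X hX h1 V
    have hR : 0 < ‖X‖ := norm_pos_iff.2 hX
    change (if ‖X‖ < 5 / 2 then u2 F B X else N X) V V ≤ _
    rw [hG1 X (by linarith)]
    obtain ⟨t, x, y, ht, hx, hy, h2, h3, h4⟩ := u2_val HOPF F B X hX V
    rw [h4, h2]
    have e0 : B ‖X‖ ^ 2 / ‖X‖ ^ 2 * t = B ‖X‖ ^ 2 / 4 * ‖fderiv ℝ hopf X V‖ ^ 2 := by
      rw [h3]
      field_simp
    have e1 : B ‖X‖ ^ 2 / 4 ≤ 1 := by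
      have := hB2 _ hR (by linarith)
      have := hok.B_pos _ hR
      nlinarith
    have e2 : x / F ‖X‖ ≤ x * (1 / κ) := by
      rw [div_eq_mul_one_div]
      have := (hF _ hR).1
      gcongr
    have e3 : 0 < 1 / κ := by positivity
    have e4 := mul_le_mul_of_nonneg_right e1 (sq_nonneg ‖fderiv ℝ hopf X V‖)
    rw [e0]
    have e5 := mul_nonneg e3.le (sq_nonneg ‖fderiv ℝ hopf X V‖)
    nlinarith [mul_nonneg e3.le ht, mul_nonneg e3.le hy, sq_nonneg ‖fderiv ℝ hopf X V‖]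

end Pool.Agent.RLim.H4
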